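import Pool.Agent.N315.RI.Ex
import Pool.Agent.N315.RI.Stm

/-!
# All invariant subspaces almost reducing and essentially reducing, but far from normal plus compact
(MP_49c4d9_an)

For every `ε > 0` there is an operator `T` on a separable Hilbert space, `‖T‖ ≤ 1 + ε`, such that for the
orthogonal projection `P_M` onto each closed invariant subspace `M` of `T` the commutator `P_M T - T P_M` is
compact and of norm at most `ε`; but `‖T - N - K‖ ≥ 1/2` for all normal `N` and all compact `K`, and the
self-commutator of `T` is not compact.

Proof. `T` is a direct sum of `λ_k + T_k` on finite-dimensional spaces, where `T_k` is a nilpotent matrix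
all of whose invariant subspaces are `ε_k`-reducing, `ε_k → 0`, and which has an approximate `2 × 2`
nilpotent direct summand of norm one (see `LogStability`), with `‖T_k²‖` much smaller than `λ_k²`. Certain
polynomials in `T` converge strongly to the projections onto the summands, so invariant subspaces split.
-/

set_option autoImplicit false

open Pool.Agent.N315.RI

namespace Pool.Agent.Results.MP_49c4d9_an.EssentiallyReducing

theorem result (ε : ℝ) (hε : 0 < ε) : ∃ (H : Type) (_ : NormedAddCommGroup H)
    (_ : InnerProductSpace ℂ H) (_ : CompleteSpace H) (_ : TopologicalSpace.SeparableSpace H)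
    (T : H →L[ℂ] H), ‖T‖ ≤ 1 + ε ∧ AlmostReductive ε T ∧ EssentiallyReductive T ∧
      FarFromNormalPlusCompact (1 / 2) T ∧ ¬ EssentiallyNormal T := by
  obtain ⟨H, i1, i2, i3, i4, T, h1, h2, h3, h4⟩ := infinite ε hε
  exact ⟨H, i1, i2, i3, i4, T, h1, fun M _ hM => (h2 M hM).1, fun M _ hM => (h2 M hM).2, h3, h4⟩

end Pool.Agent.Results.MP_49c4d9_an.EssentiallyReducing
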