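import Pool.Agent.N300.RL.Main
import Pool.Agent.N300.RL.Null
import Pool.Agent.N812.IS.Fin

/-!
# MP_49c4d9_an: non-reducing hyperinvariant subspaces of generic perturbations of normal operators

Let `N` be an arbitrary normal operator on a complex Hilbert space and `K f = ∑ s j ⟪v j, f⟫ u j` with
orthonormal sequences `u`, `v` and `∑ s j ² (1 + |log (s j)|) < ∞`; every operator of a Schatten class
`S_p`, `p < 2`, on an infinite-dimensional space is of this form (`schatten`).

(1) For every `t` outside a set which is null for all atomless measures with bounded logarithmic potential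
(so for almost every complex and for almost every real `t`), for every closed subspace `V` reducing
`T = N + t K`: if all closed hyperinvariant subspaces of `T|V` are reducing, then `T|V` is normal. In
particular `T` is normal if it is reductive, and even if only its hyperinvariant subspaces are reducing.

(2) Either `N + t K` is normal for all complex `t`, or for almost every complex `t` it has a closed
hyperinvariant subspace which is not reducing. (3) The same for real `t`.

The starting result `ReductiveCouplings` of this page is: `K` of trace class, the space separable, `T`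
reductive (all invariant subspaces are reducing) implies `T` normal, for almost every `t`. The result
`NormalPlusSchatten` of MP_f981b0_an (helper812) gives for the same `N`, `K` nontrivial hyperinvariant
subspaces; these may be reducing, and nothing is known on the restriction to a reducing subspace, which is not
of the form normal + `K`.

Proof of (1). For the generic `t` of helper812's theorem we keep the whole local resolvent: for every vector
`x`, point `c` and `ε > 0` there are a bounded function `g` on the annulus `ε/2 < |z - c| ≤ ε`, orthogonal to
the polynomials but not to `1 / (z - c)`, and formally `X k = ∫ g(z) (z - c)^k (z - T)⁻¹ x dA` with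
`(T - c) X k = X (k + 1)`, `‖X k‖ ≤ C ε^k` and `X 0 - I x` in the range of `T - c`, `I ≠ 0` (`Loc`). This
passes to reducing subspaces, and to the adjoint. If `T|V` is not normal and all its hyperinvariant
subspaces are reducing, then the self-commutator is compact and nonzero on `V`, and an eigenvector
`w` of it for a nonzero eigenvalue, chosen such that the part of the eigenspace in the hyperinvariant
subspace generated by `w` has minimal dimension, generates a reducing hyperinvariant subspace `G` such that
`T|G` is not scalar and has no nontrivial hyperinvariant subspace (`Hyp`, adapted from helper706's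
argument for reductive operators: here the subspaces generated by the commutant and their differences have to
be followed). But by the local resolvents `T|G` has a hyperinvariant subspace if its spectrum has two points
(helper271, helper283); and if it has one point `c`, then `T|G - c` is quasinilpotent with compact
self-commutator, so it is compact, and Lomonosov's theorem applies.

(2), (3): the self-commutator of `N + t K` is `t A + conj t B + |t|² C`, which vanishes for all `t` or only
on a null set.

From other projects: `N812.IS` (helper812), and, in the starting library, `Y271.RN` (helper271),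
`Y283.NK` (helper283), `W706.HIR` (helper706), `W577.HI.G1` (Lomonosov), `R276.CP`, `Y271.RO`, `R277.SP`,
`Y891.NK`.
-/

set_option autoImplicit false

open MeasureTheory Metric
open scoped InnerProductSpace ENNReal NNReal

namespace Pool.Agent.Results.MP_49c4d9_an.GenericHyperinvariant

section Defs

variable {H : Type} [NormedAddCommGroup H] [InnerProductSpace ℂ H]

/-- `V` is a closed subspace which is invariant under `T` and under the adjoint of `T`. -/
structure Reducing [CompleteSpace H] (T : H →L[ℂ] H) (V : Submodule ℂ H) : Prop where
  closed : IsClosed (V : Set H)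
  inv : ∀ x ∈ V, T x ∈ V
  adj : ∀ x ∈ V, ContinuousLinearMap.adjoint T x ∈ V

/-- `W` is a closed subspace of `V`, invariant under every bounded operator that commutes with `T` and
leaves `V` invariant. For reducing `V` these are the hyperinvariant subspaces of the restriction of `T` to
`V`; for `V = ⊤` the hyperinvariant subspaces of `T`. -/
structure HyperinvariantIn (T : H →L[ℂ] H) (V W : Submodule ℂ H) : Prop where
  le : W ≤ V
  closed : IsClosed (W : Set H)
  inv : ∀ Q : H →L[ℂ] H, Q * T = T * Q → (∀ x ∈ V, Q x ∈ V) → ∀ x ∈ W, Q x ∈ W

/-- For every reducing subspace `V`: if all closed hyperinvariant subspaces of `T|V` are reducing, then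
`T|V` is normal. -/
def Good [CompleteSpace H] (T : H →L[ℂ] H) : Prop :=
  ∀ V : Submodule ℂ H, Reducing T V → (∀ W : Submodule ℂ H, HyperinvariantIn T V W → Reducing T W) →
    ∀ x ∈ V, ContinuousLinearMap.adjoint T (T x) = T (ContinuousLinearMap.adjoint T x)

/-- `T` has a closed hyperinvariant subspace which is not reducing. -/
def HasNonreducing [CompleteSpace H] (T : H →L[ℂ] H) : Prop :=
  ∃ W : Submodule ℂ H, HyperinvariantIn T ⊤ W ∧ ¬ Reducing T W

/-- `K f = ∑ s j ⟪v j, f⟫ u j` with orthonormal sequences `u`, `v` and numbers `s j ≥ 0`. -/
structure SingularValues (K : H →L[ℂ] H) (s : ℕ → ℝ) (u v : ℕ → H) : Prop where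
  left : Orthonormal ℂ u
  right : Orthonormal ℂ v
  nonneg : ∀ j, 0 ≤ s j
  sum : ∀ f, HasSum (fun j => ((s j : ℂ) * ⟪v j, f⟫_ℂ) • u j) (K f)

/-- The singular numbers of `K` satisfy `∑ s² (1 + |log s|) < ∞`. -/
def LogHilbertSchmidt (K : H →L[ℂ] H) : Prop :=
  ∃ (s : ℕ → ℝ) (u v : ℕ → H), SingularValues K s u v ∧
    Summable fun j => s j ^ 2 * (1 + |Real.log (s j)|)

/-- The singular numbers of `K` satisfy `∑ s^p < ∞`. -/
def Schatten (p : ℝ) (K : H →L[ℂ] H) : Prop :=
  ∃ (s : ℕ → ℝ) (u v : ℕ → H), SingularValues K s u v ∧ Summable fun j => s j ^ p

/-- Every closed invariant subspace of `T` is reducing. -/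
def Reductive [CompleteSpace H] (T : H →L[ℂ] H) : Prop :=
  ∀ V : Submodule ℂ H, IsClosed (V : Set H) → (∀ x ∈ V, T x ∈ V) →
    ∀ x ∈ V, ContinuousLinearMap.adjoint T x ∈ V

end Defs

/-- The measure `m` has no atoms, and on every disc `|t| < R` it is finite and
`∫ log⁺ (1 / |t - s|) dm(t)` is bounded in `s ∈ ℂ`. -/
def BoundedPotential (m : Measure ℂ) : Prop :=
  (∀ s : ℂ, m {s} = 0) ∧
  ∀ R : ℝ, m (ball (0:ℂ) R) ≠ ⊤ ∧ ∃ C : ℝ≥0, ∀ s : ℂ,
    ∫⁻ t in ball (0:ℂ) R, ENNReal.ofReal (Real.posLog ‖t - s‖⁻¹) ∂m ≤ C

/-- The exceptional set of the coupling constants is null for all measures with bounded logarithmic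
potential, for the area and for the length on the real line. -/
def Generic (P : ℂ → Prop) : Prop :=
  (∀ m : Measure ℂ, BoundedPotential m → ∀ᵐ t ∂m, P t) ∧ (∀ᵐ t : ℂ, P t) ∧ (∀ᵐ t : ℝ, P (t : ℂ))

section Lemmas

variable {H : Type} [NormedAddCommGroup H] [InnerProductSpace ℂ H] [CompleteSpace H]

/-- On the whole space: if the hyperinvariant subspaces are reducing, the operator is normal. -/
theorem Good.normal {T : H →L[ℂ] H} (h : Good T)
    (hT : ∀ W : Submodule ℂ H, HyperinvariantIn T ⊤ W → Reducing T W) : IsStarNormal T := by
  constructor
  ext x
  exact h ⊤ ⟨isClosed_univ, fun _ _ => trivial, fun _ _ => trivial⟩ hT x trivial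

/-- a good operator which is not normal has a hyperinvariant subspace which is not reducing -/
theorem Good.nonreducing {T : H →L[ℂ] H} (h : Good T) (hT : ¬ IsStarNormal T) : HasNonreducing T := by
  by_contra hcon
  apply hT
  refine h.normal fun W hW => ?_
  by_contra hW'
  exact hcon ⟨W, hW, hW'⟩

/-- a good operator is normal if it is reductive -/
theorem Good.reductive {T : H →L[ℂ] H} (h : Good T) (hT : Reductive T) : IsStarNormal T := by
  refine h.normal fun W hW => ?_
  have h1 : ∀ x ∈ W, T x ∈ W := hW.inv T rfl fun _ _ => trivial
  exact ⟨hW.closed, h1, hT W hW.closed h1⟩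

theorem normal_of {N K : H →L[ℂ] H} {t : ℂ}
    (h : (N + t • K) * star (N + t • K) - star (N + t • K) * (N + t • K) = 0) :
    IsStarNormal (N + t • K) :=
  ⟨(sub_eq_zero.1 h).symm⟩

end Lemmas

/-- **Generic perturbations of normal operators with `∑ s² (1 + |log s|) < ∞` and the reductive operator
problem.** Let `N` be normal and `K` with `∑ s² (1 + |log s|) < ∞` on a Hilbert space.

(1) For almost every `t` with respect to every atomless measure with bounded logarithmic potential, in
particular for almost every complex and for almost every real `t`, the operator `N + t K` is good: on every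
reducing subspace it is normal or has a closed hyperinvariant subspace which is not reducing.

(2) `N + t K` is normal for all complex `t`, or it has a closed hyperinvariant subspace which is not reducing
for almost every complex `t`.

(3) `N + t K` is normal for all real `t`, or it has a closed hyperinvariant subspace which is not reducing
for almost every real `t`. -/
theorem result (H : Type) [NormedAddCommGroup H] [InnerProductSpace ℂ H] [CompleteSpace H]
    (N K : H →L[ℂ] H) (hN : IsStarNormal N) (hK : LogHilbertSchmidt K) :
    (Generic fun t => Good (N + t • K)) ∧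
    ((∀ t : ℂ, IsStarNormal (N + t • K)) ∨ ∀ᵐ t : ℂ, HasNonreducing (N + t • K)) ∧
    ((∀ t : ℝ, IsStarNormal (N + (t : ℂ) • K)) ∨ ∀ᵐ t : ℝ, HasNonreducing (N + (t : ℂ) • K)) := by
  obtain ⟨s, u, v, hs, hsum⟩ := hK
  have hK' : Pool.Agent.N812.IS.LogHS K :=
    ⟨s, u, v, hs.left, hs.right, hs.nonneg, hsum, hs.sum⟩
  have main : ∀ m : Measure ℂ, Pool.Agent.R276.CP.LogBd m → ∀ᵐ t ∂m, Good (N + t • K) := by
    intro m hm
    filter_upwards [Pool.Agent.N300.RL.couplings hN hK' hm] with t ht
    intro V hV hW
    rcases ht V ⟨hV.closed, hV.inv, hV.adj⟩ with h | ⟨W, h1, h2, h3, x, hx, hx'⟩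
    · exact h
    · exact absurd ((hW W ⟨h1, h2, h3⟩).adj x hx) hx'
  have h23 := Pool.Agent.N812.IS.three main
  refine ⟨⟨fun m hm => main m (Pool.Agent.N812.IS.logbd_of hm.1 hm.2), h23⟩, ?_, ?_⟩
  · by_cases h : K * star N = star N * K ∧ K * star K = star K * K
    · left
      intro t
      apply normal_of
      rw [Pool.Agent.N300.RL.comm_eq hN t]
      have h1 : N * star K = star K * N := by
        have := congrArg star h.1
        rwa [star_mul, star_mul, star_star] at this
      rw [h.1, h.2, h1, sub_self, sub_self, sub_self, smul_zero, smul_zero, smul_zero, add_zero,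
        add_zero]
    · right
      filter_upwards [h23.1, Pool.Agent.N300.RL.ae_complex hN h] with t h1 h2
      exact h1.nonreducing h2
  · by_cases h : K * star N + N * star K = star N * K + star K * N ∧ K * star K = star K * K
    · left
      intro t
      apply normal_of
      rw [Pool.Agent.N300.RL.comm_eq hN, Complex.conj_ofReal, ← smul_add, h.2, sub_self, smul_zero,
        add_zero]
      have h1 : K * star N - star N * K + (N * star K - star K * N) =
          K * star N + N * star K - (star N * K + star K * N) := by abel
      rw [h1, h.1, sub_self, smul_zero]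
    · right
      filter_upwards [h23.2, Pool.Agent.N300.RL.ae_real hN h] with t h1 h2
      exact h1.nonreducing h2

/-- The reductive operator problem for these perturbations. -/
theorem reductive (H : Type) [NormedAddCommGroup H] [InnerProductSpace ℂ H] [CompleteSpace H]
    (N K : H →L[ℂ] H) (hN : IsStarNormal N) (hK : LogHilbertSchmidt K) :
    Generic fun t => Reductive (N + t • K) → IsStarNormal (N + t • K) := by
  obtain ⟨⟨h1, h2, h3⟩, -⟩ := result H N K hN hK
  refine ⟨fun m hm => ?_, ?_, ?_⟩
  · filter_upwards [h1 m hm] with t ht using ht.reductive
  · filter_upwards [h2] with t ht using ht.reductive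
  · filter_upwards [h3] with t ht using ht.reductive

/-- The Schatten classes `S_p`, `p < 2`, are covered. -/
theorem schatten (H : Type) [NormedAddCommGroup H] [InnerProductSpace ℂ H]
    (K : H →L[ℂ] H) (p : ℝ) (h0 : 0 < p) (h2 : p < 2) (hK : Schatten p K) :
    LogHilbertSchmidt K := by
  obtain ⟨s, u, v, hs, hsum⟩ := hK
  refine ⟨s, u, v, hs, ?_⟩
  refine (Pool.Agent.N812.IS.pow_log hs.nonneg h0 h2 hsum).congr fun j => ?_
  rw [Real.rpow_two]

end Pool.Agent.Results.MP_49c4d9_an.GenericHyperinvariant
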