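import Pool.Agent.N315.RI.Fin
import Pool.Agent.N315.RI.Stm

/-!
# The exact order of stability of the reductive operator theorem in finite dimensions (MP_49c4d9_an)

In finite dimensions reductive operators are normal.  Call `T` `ε`-reductive if `‖P_M T - T P_M‖ ≤ ε` for
the orthogonal projection `P_M` onto every (closed) invariant subspace `M`.

(1) An `ε`-reductive operator on a space of dimension at most `2 ^ k` is within `k ε` of a normal operator.
(2) On `ℂ^(2n)` there is a `1`-reductive operator whose distance to every normal operator is at least
`log (n + 1) / 16 - 1 / 4`.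

So the best constant in dimension `N` is of the exact order `log N`; there is no dimension-free form of the
theorem.

Proof. (1) Split with an invariant subspace of half the dimension, use induction for the two compressions,
and note that the off-diagonal corner costs `ε`. (2) Let `G` be the matrix with entries `1 / (j - i)` for
`i < j`. Its corners have norm at most `8` (Hilbert's inequality, Schur test), but the constant vector is an
approximate joint eigenvector of `G` and of its adjoint for the eigenvalue `1 + 1/2 + ⋯ + 1/n`. Take
`G ⊗ A` with a nilpotent `2 × 2` matrix `A` and add a small multiple of the Jordan block which makes the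
flag of coordinate subspaces the only invariant subspaces.
-/

set_option autoImplicit false

open Pool.Agent.N315.RI

namespace Pool.Agent.Results.MP_49c4d9_an.LogStability

theorem result :
    (∀ (k : ℕ) (E : Type) [NormedAddCommGroup E] [InnerProductSpace ℂ E] [FiniteDimensional ℂ E],
      Module.finrank ℂ E ≤ 2 ^ k → ∀ (T : E →L[ℂ] E) (ε : ℝ), 0 ≤ ε → AlmostReductive ε T →
        NearNormal (k * ε) T) ∧
    (∀ n : ℕ, 1 ≤ n → ∃ T : EuclideanSpace ℂ (Fin (2 * n)) →L[ℂ] EuclideanSpace ℂ (Fin (2 * n)),
      AlmostReductive 1 T ∧ FarFromNormal (Real.log (n + 1) / 16 - 1 / 4) T) := by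
  refine ⟨fun k E _ _ _ h T ε hε hT => upper k E h T ε hε hT, fun n hn => ?_⟩
  rw [Nat.mul_comm 2 n]
  obtain ⟨T, h1, h2⟩ := lower' n hn
  exact ⟨T, h1, h2⟩

end Pool.Agent.Results.MP_49c4d9_an.LogStability
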