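import Pool.Agent.N315.UI.FinU
import Pool.Agent.N315.UI.StmU

/-!
# Universality of almost reductive unicellular quasinilpotent operators (MP_49c4d9_an)

Let `H` be a separable infinite-dimensional complex Hilbert space, `A` any bounded operator on `H` and
`ε > 0`. There are a bounded operator `T` on `H`, `‖T‖ ≤ ‖A‖ + ε`, and an isometry `V` of `H` into itself
such that every closed invariant subspace `M` of `T` is `ε`-reducing (`‖P_M T - T P_M‖ ≤ ε`), the closed
invariant subspaces of `T` form a chain, `T` has spectrum `{0}`, and `A` is up to `ε` a direct summand of
`T` on the range of `V`.

So the condition that all invariant subspaces are almost reducing imposes no restriction at all on the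
approximate direct summands of an operator, even if the operator has no two incomparable invariant subspaces
and one-point spectrum.

Proof. Let `G` be the `n × n` matrix with entries `1 / (j - i)` for `i < j`, divided by
`1 + 1/2 + ⋯ + 1/n`; its upper right corners have norm `O(1 / log n)` (Hilbert's inequality), but the constant
vector is an approximate joint eigenvector of `G` and `G*`. On the direct sum of `n` copies of `H` consider
`G ⊗ A`. Among the compact perturbations which leave invariant a chain of subspaces of order type `ω · n`
refining the flag of the `n` copies, those which are unicellular are generic (Baire category), and these have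
only invariant subspaces from this chain.
-/

set_option autoImplicit false

open Pool.Agent.N315.RI Pool.Agent.N315.UI

namespace Pool.Agent.Results.MP_49c4d9_an.Universality

theorem result (H : Type*) [NormedAddCommGroup H] [InnerProductSpace ℂ H] [CompleteSpace H]
    [TopologicalSpace.SeparableSpace H] (hinf : ¬ FiniteDimensional ℂ H) (A : H →L[ℂ] H) (ε : ℝ)
    (hε : 0 < ε) :
    ∃ (T : H →L[ℂ] H) (V : H →ₗᵢ[ℂ] H), AlmostReductive ε T ∧ Unicellular T ∧
      spectrum ℂ T = {0} ∧ ‖T‖ ≤ ‖A‖ + ε ∧ AlmostSummand ε V A T :=
  universal hinf A ε hε

end Pool.Agent.Results.MP_49c4d9_an.Universality
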